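import Pool.Agent.TH64.Fill

/-!
# Geodesics with bounded crossings and the same ends modulo `M` are close modulo `M` (helper739)

Job 482 for helper64.
-/

set_option autoImplicit false

namespace Pool.Agent.TH64

variable {G : Type*} [Group G]

/-- all the lines are crossed by at most `B / 4` between `a` and `b` -/
def Good {H : Hyp G} {x : G} (A : Ax H x) (B : ℕ) (a b : G) : Prop :=
  ∀ p q : G, H.d a p + H.d p b = H.d a b → H.d a q + H.d q b = H.d a b →
    ∀ u : G, 4 * |A.s u p q| ≤ B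

namespace Close

theorem len_pow_le (H : Hyp G) (x : G) (k : ℕ) : H.len (x ^ k) ≤ k * H.len x := by
  induction k with
  | zero => simp [H.len_one]
  | succ k ih =>
    rw [pow_succ, Nat.succ_mul]
    exact (H.len_mul _ _).trans (by omega)

theorem len_zpow_le (H : Hyp G) (x : G) (k : ℤ) : H.len (x ^ k) ≤ k.natAbs * H.len x := by
  have h : H.len (x ^ k) = H.len (x ^ k.natAbs) := by
    rcases Int.natAbs_eq k with h | h
    · conv_lhs => rw [h, zpow_natCast]
    · conv_lhs => rw [h, zpow_neg, zpow_natCast, H.len_inv]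
  rw [h]
  exact len_pow_le H x _

theorem len_zpow_le' (H : Hyp G) (x : G) (k : ℤ) (m : ℕ) (h : |k| ≤ m) :
    H.len (x ^ k) ≤ m * H.len x := by
  refine (len_zpow_le H x k).trans (Nat.mul_le_mul_right _ ?_)
  rw [Int.abs_eq_natAbs] at h
  exact_mod_cast h

/-- sub-intervals -/
theorem sub_right (H : Hyp G) {a b w p : G} (hw : H.d a w + H.d w b = H.d a b)
    (hp : H.d w p + H.d p b = H.d w b) : H.d a p + H.d p b = H.d a b := by
  have h1 := H.d_tri a w p
  have h2 := H.d_tri a p b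
  omega

theorem sub_left (H : Hyp G) {a b w p : G} (hw : H.d a w + H.d w b = H.d a b)
    (hp : H.d a p + H.d p w = H.d a w) : H.d a p + H.d p b = H.d a b := by
  have h1 := H.d_tri p w b
  have h2 := H.d_tri a p b
  omega

theorem good_right {H : Hyp G} {x : G} {A : Ax H x} {B : ℕ} {a b w : G} (h : Good A B a b)
    (hw : H.d a w + H.d w b = H.d a b) : Good A B w b :=
  fun p q hp hq u => h p q (sub_right H hw hp) (sub_right H hw hq) u

theorem good_mul {H : Hyp G} {x : G} {A : Ax H x} {B : ℕ} {a b : G} (g : G)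
    (h : Good A B a b) : Good A B (g * a) (g * b) := by
  intro p q hp hq u
  have e : ∀ p, H.d (g * a) p + H.d p (g * b) = H.d (g * a) (g * b) →
      H.d a (g⁻¹ * p) + H.d (g⁻¹ * p) b = H.d a b := by
    intro p hp
    have h1 := H.d_mul g a (g⁻¹ * p)
    have h2 := H.d_mul g (g⁻¹ * p) b
    have h3 := H.d_mul g a b
    rw [mul_inv_cancel_left] at h1 h2
    omega
  have h1 := h (g⁻¹ * p) (g⁻¹ * q) (e p hp) (e q hq) (g⁻¹ * u)
  rwa [A.s_mul] at h1

/-- a point of a geodesic near an almost intermediate point -/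
theorem near_pt (H : Hyp G) {a b P : G} {e : ℕ} (h : H.d a P + H.d P b ≤ H.d a b + e) :
    ∃ w, H.d a w + H.d w b = H.d a b ∧ H.d w P ≤ e + H.D := by
  by_cases hk : H.d a P ≤ H.d a b
  · obtain ⟨w, hw1, hw2⟩ := H.between a b (H.d a P) hk
    have hw : H.d a w + H.d w b = H.d a b := by omega
    exact ⟨w, hw, H.almost h hw (Or.inl hw1)⟩
  · have hb : H.d a b + H.d b b = H.d a b := by rw [H.d_self, Nat.add_zero]
    exact ⟨b, hb, H.almost h hb (Or.inr ⟨by omega, rfl⟩)⟩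

/-- the same, on a common geodesic with a given point -/
theorem near_pt' (H : Hyp G) {a b P p : G} {e : ℕ} (h : H.d a P + H.d P b ≤ H.d a b + e)
    (hp : H.d a p + H.d p b = H.d a b) :
    ∃ w, H.d a w + H.d w b = H.d a b ∧ H.d w P ≤ e + H.D ∧
      (H.d a w = H.d a P ∨ (H.d a b ≤ H.d a P ∧ w = b)) ∧
      (H.d a p + H.d p w = H.d a w ∨ H.d w p + H.d p b = H.d w b) := by
  by_cases hk : H.d a P ≤ H.d a b
  · by_cases hk2 : H.d a P ≤ H.d a p
    · obtain ⟨w, hw1, hw2⟩ := H.between a p (H.d a P) hk2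
      have h1 := H.d_tri w p b
      have h2 := H.d_tri a w b
      have hw : H.d a w + H.d w b = H.d a b := by omega
      exact ⟨w, hw, H.almost h hw (Or.inl hw1), Or.inl hw1, Or.inr (by omega)⟩
    · obtain ⟨w, hw1, hw2⟩ := H.between p b (H.d a P - H.d a p) (by omega)
      have h1 := H.d_tri a p w
      have h2 := H.d_tri a w b
      have hw : H.d a w + H.d w b = H.d a b := by omega
      have hw3 : H.d a w = H.d a P := by omega
      exact ⟨w, hw, H.almost h hw (Or.inl hw3), Or.inl hw3, Or.inl (by omega)⟩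
  · have hb : H.d a b + H.d b b = H.d a b := by rw [H.d_self, Nat.add_zero]
    exact ⟨b, hb, H.almost h hb (Or.inr ⟨by omega, rfl⟩), Or.inr ⟨by omega, rfl⟩, Or.inl hp⟩

/-- slim quadrilaterals -/
theorem quad (H : Hyp G) {a' e' w a p' : G} {C0 Q : ℕ} (h1 : H.d a' a ≤ C0) (h2 : H.d e' w ≤ Q)
    (hp : H.d a' p' + H.d p' e' = H.d a' e') :
    ∃ p, H.d a p + H.d p w = H.d a w ∧ H.d p' p ≤ 4 * H.D + C0 + Q := by
  have haw : H.d a w + H.d w w = H.d a w := by rw [H.d_self, Nat.add_zero]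
  have haa : H.d a a + H.d a w = H.d a w := by rw [H.d_self, Nat.zero_add]
  rcases H.slim w hp with ⟨q, hq1, hq2⟩ | ⟨q, hq1, hq2⟩
  · rcases H.slim a hq1 with ⟨r, hr1, hr2⟩ | ⟨r, hr1, hr2⟩
    · refine ⟨a, haa, ?_⟩
      have t1 := H.d_tri p' q a
      have t2 := H.d_tri q r a
      omega
    · refine ⟨r, ?_, ?_⟩
      · rw [H.d_comm a r, H.d_comm r w, H.d_comm a w]
        omega
      · have t1 := H.d_tri p' q r
        omega
  · refine ⟨w, haw, ?_⟩
    have t1 := H.d_tri p' q w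
    omega

variable {H : Hyp G} {x : G} (A : Ax H x)

/-- the distance allowed between the starting points -/
def C0 : ℕ := 3 * A.c + 2 * H.D + 12 * A.th * H.len x

/-- the displacement between the starting points -/
def t0 : ℕ := A.c * C0 A + A.c * A.c + A.c

theorem s_start (u : G) {a a' : G} (h : H.d a a' ≤ C0 A) : |A.s u a a'| ≤ t0 A := by
  have h1 := A.lip_s u a a'
  have h2 : (A.c : ℤ) * (H.d a a' : ℤ) ≤ A.c * C0 A :=
    mul_le_mul_of_nonneg_left (by exact_mod_cast h) (by positivity)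
  unfold t0
  push_cast
  omega

theorem general (c1 N : ℕ) (hN : 4 * A.c + 48 * A.th + 4 * t0 A + c1 + 1 ≤ N) (M : Subgroup G)
    (hF : Fill A N M) : ∀ (k : ℕ) (a b a' b' : G), H.d a b + H.d a' b' ≤ k →
      Good A (3 * N + c1) a b → Good A (3 * N + c1) a' b' → H.d a a' ≤ C0 A →
      (∃ n ∈ M, b' = n * b) → ∀ p' : G, H.d a' p' + H.d p' b' = H.d a' b' →
      ∃ p : G, H.d a p + H.d p b = H.d a b ∧ ∃ m ∈ M,
        H.d p' (m * p) ≤ 4 * H.D + C0 A + (2 * (A.c + H.D) + (t0 A + 3 * N + c1) * H.len x) := by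
  intro k
  induction k using Nat.strong_induction_on with
  | _ k ih =>
  rintro a b a' b' hk hg hg' ha ⟨n, hn, hb⟩ p' hp'
  have haa : H.d a a + H.d a b = H.d a b := by rw [H.d_self, Nat.zero_add]
  have hbb : H.d a b + H.d b b = H.d a b := by rw [H.d_self, Nat.add_zero]
  have haa' : H.d a' a' + H.d a' b' = H.d a' b' := by rw [H.d_self, Nat.zero_add]
  have hbb' : H.d a' b' + H.d b' b' = H.d a' b' := by rw [H.d_self, Nat.add_zero]
  by_cases hn1 : n = 1
  · -- the same endpoint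
    have hb' : b' = b := by rw [hb, hn1, one_mul]
    subst hb'
    rcases H.slim a hp' with ⟨q, hq1, hq2⟩ | ⟨q, hq1, hq2⟩
    · refine ⟨a, haa, 1, M.one_mem, ?_⟩
      rw [one_mul]
      have t1 := H.d_tri p' q a
      rw [H.d_comm a' a] at hq1
      omega
    · refine ⟨q, ?_, 1, M.one_mem, ?_⟩
      · rw [H.d_comm a q, H.d_comm q b', H.d_comm a b']
        omega
      · rw [one_mul]
        omega
  obtain ⟨u, hu⟩ := hF.gr n hn hn1 b
  rw [← hb] at hu
  have hα := hg a b haa hbb u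
  have hβ := hg' a' b' haa' hbb' u
  have hs := s_start A u ha
  have hadd1 := A.s_add u a a' b'
  have hadd2 := A.s_add u a b b'
  push_cast at hα hβ
  have hNz : (4 * A.c + 48 * A.th + 4 * t0 A + c1 + 1 : ℤ) ≤ N := by exact_mod_cast hN
  -- the sign of the rotation
  obtain ⟨σ, hσ, hα1, hβ1⟩ : ∃ σ : ℤ, (σ = 1 ∨ σ = -1) ∧ (A.c : ℤ) < σ * A.s u a b ∧
      (A.c : ℤ) < - (σ * A.s u a' b') := by
    rcases abs_cases (A.s u a b) with ⟨e1, e1'⟩ | ⟨e1, e1'⟩
    · refine ⟨1, Or.inl rfl, ?_, ?_⟩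
      · rcases abs_cases (A.s u a' b') with ⟨e2, e2'⟩ | ⟨e2, e2'⟩ <;>
        rcases abs_cases (A.s u b b') with ⟨e3, e3'⟩ | ⟨e3, e3'⟩ <;>
        rcases abs_cases (A.s u a a') with ⟨e4, e4'⟩ | ⟨e4, e4'⟩ <;> omega
      · rcases abs_cases (A.s u a' b') with ⟨e2, e2'⟩ | ⟨e2, e2'⟩ <;>
        rcases abs_cases (A.s u b b') with ⟨e3, e3'⟩ | ⟨e3, e3'⟩ <;>
        rcases abs_cases (A.s u a a') with ⟨e4, e4'⟩ | ⟨e4, e4'⟩ <;> omega
    · refine ⟨-1, Or.inr rfl, ?_, ?_⟩
      · rcases abs_cases (A.s u a' b') with ⟨e2, e2'⟩ | ⟨e2, e2'⟩ <;>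
        rcases abs_cases (A.s u b b') with ⟨e3, e3'⟩ | ⟨e3, e3'⟩ <;>
        rcases abs_cases (A.s u a a') with ⟨e4, e4'⟩ | ⟨e4, e4'⟩ <;> omega
      · rcases abs_cases (A.s u a' b') with ⟨e2, e2'⟩ | ⟨e2, e2'⟩ <;>
        rcases abs_cases (A.s u b b') with ⟨e3, e3'⟩ | ⟨e3, e3'⟩ <;>
        rcases abs_cases (A.s u a a') with ⟨e4, e4'⟩ | ⟨e4, e4'⟩ <;> omega
  have hα2 : (A.c : ℤ) < |A.s u a b| := by
    rcases hσ with rfl | rfl
    · rw [one_mul] at hα1; exact hα1.trans_le (le_abs_self _)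
    · rw [neg_one_mul] at hα1; exact hα1.trans_le (neg_le_abs _)
  have hβ2 : (A.c : ℤ) < |A.s u a' b'| := by
    rcases hσ with rfl | rfl
    · rw [one_mul] at hβ1; exact hβ1.trans_le (neg_le_abs _)
    · rw [neg_one_mul, neg_neg] at hβ1; exact hβ1.trans_le (le_abs_self _)
  -- the point `e'` of the geodesic from `a'` to `b'`
  obtain ⟨e', he1, he2, he3, he4⟩ := near_pt' H (A.pr_between' u a' b' hβ2) hp'
  have het : 0 < H.d a' e' := by
    rcases Nat.eq_zero_or_pos (H.d a' e') with h0 | h0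
    · exfalso
      have h00 : A.s u a' b' = 0 := by
        rcases he3 with h | ⟨-, h⟩
        · have h1 : a' = A.pr u b' := H.eq_of_d (by omega)
          have h2 := A.s_pr_right u a' b'
          rw [← h1, A.s_self] at h2
          exact h2.symm
        · have h1 : a' = b' := H.eq_of_d (by rw [← h]; exact h0)
          rw [h1, A.s_self]
      rw [h00, abs_zero] at hβ2
      have : (0 : ℤ) ≤ A.c := by positivity
      omega
    · exact h0
  rcases he4 with he4 | he4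
  · -- `p'` is between `a'` and `e'`
    obtain ⟨w, hw1, hw2⟩ := near_pt H (A.pr_between u a b hα2)
    have hd : H.d e' w ≤ 2 * (A.c + H.D) + (t0 A + 3 * N + c1) * H.len x := by
      have h1 : H.d (A.pr u b') (A.pr u a) ≤ (t0 A + 3 * N + c1) * H.len x := by
        rw [A.d_pr_pr]
        refine len_zpow_le' H x _ _ ?_
        have h2 := A.s_symm u a b'
        have h3 := A.s_add u a a' b'
        push_cast
        rcases abs_cases (A.s u a' b') with ⟨e2, e2'⟩ | ⟨e2, e2'⟩ <;>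
        rcases abs_cases (A.s u b' a) with ⟨e3, e3'⟩ | ⟨e3, e3'⟩ <;>
        rcases abs_cases (A.s u a a') with ⟨e4, e4'⟩ | ⟨e4, e4'⟩ <;> omega
      have t1 := H.d_tri e' (A.pr u b') w
      have t2 := H.d_tri (A.pr u b') (A.pr u a) w
      rw [H.d_comm (A.pr u a) w] at t2
      omega
    have ha' : H.d a' a ≤ C0 A := by rw [H.d_comm]; exact ha
    obtain ⟨p, hp1, hp2⟩ := quad H ha' hd he4
    refine ⟨p, sub_left H hw1 hp1, 1, M.one_mem, ?_⟩
    rw [one_mul]
    exact hp2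
  · -- `p'` is between `e'` and `b'`: rotate
    set ρ := PAx.rt x u (N * σ) with hρ
    have hρM : ρ ∈ M := hF.rot u σ
    set l0 : ℤ := A.κ (u⁻¹ * b') + N * σ with hl0
    set l1 : ℤ := if σ * l0 ≤ σ * A.κ (u⁻¹ * b) then l0 else A.κ (u⁻¹ * b) with hl1
    have hsab : A.s u a b = A.κ (u⁻¹ * b) - A.κ (u⁻¹ * a) := rfl
    have hsab' : A.s u a' b' = A.κ (u⁻¹ * b') - A.κ (u⁻¹ * a') := rfl
    have hsbb' : A.s u b b' = A.κ (u⁻¹ * b') - A.κ (u⁻¹ * b) := rfl
    have hsaa' : A.s u a a' = A.κ (u⁻¹ * a') - A.κ (u⁻¹ * a) := rfl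
    have key : |l1 - l0| ≤ 12 * A.th ∧
        |l1 - A.κ (u⁻¹ * a)| + |A.κ (u⁻¹ * b) - l1| = |A.s u a b| := by
      have b1 : -(t0 A : ℤ) ≤ A.s u a a' ∧ A.s u a a' ≤ t0 A := abs_le.1 hs
      have b2 := abs_le.1 (show |A.s u a' b'| ≤ (3 * N + c1 : ℤ) / 4 by omega)
      have b3 := abs_le.1 (show |A.s u a b| ≤ (3 * N + c1 : ℤ) / 4 by omega)
      rcases hσ with rfl | rfl
      · have b4 : A.s u b b' ≤ -(N - 12 * A.th : ℤ) := by
          rcases abs_cases (A.s u b b') with ⟨e3, e3'⟩ | ⟨e3, e3'⟩ <;> omega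
        simp only [one_mul, mul_one] at hl0 hl1 hα1 hβ1
        rw [hsab, abs_of_pos (show 0 < A.κ (u⁻¹ * b) - A.κ (u⁻¹ * a) by omega)]
        by_cases hc : l0 ≤ A.κ (u⁻¹ * b)
        · rw [if_pos hc] at hl1
          rw [hl1, sub_self, abs_zero, abs_of_nonneg (show 0 ≤ l0 - A.κ (u⁻¹ * a) by omega),
            abs_of_nonneg (show 0 ≤ A.κ (u⁻¹ * b) - l0 by omega)]
          constructor
          · positivity
          · ring
        · rw [if_neg hc] at hl1
          rw [hl1, sub_self, abs_zero,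
            abs_of_nonneg (show 0 ≤ A.κ (u⁻¹ * b) - A.κ (u⁻¹ * a) by omega),
            abs_of_nonpos (show A.κ (u⁻¹ * b) - l0 ≤ 0 by omega)]
          constructor
          · omega
          · ring
      · have b4 : (N - 12 * A.th : ℤ) ≤ A.s u b b' := by
          rcases abs_cases (A.s u b b') with ⟨e3, e3'⟩ | ⟨e3, e3'⟩ <;> omega
        simp only [neg_one_mul, mul_neg, mul_one] at hl0 hl1 hα1 hβ1
        rw [hsab, abs_of_neg (show A.κ (u⁻¹ * b) - A.κ (u⁻¹ * a) < 0 by omega)]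
        by_cases hc : -l0 ≤ -A.κ (u⁻¹ * b)
        · rw [if_pos hc] at hl1
          rw [hl1, sub_self, abs_zero, abs_of_nonpos (show l0 - A.κ (u⁻¹ * a) ≤ 0 by omega),
            abs_of_nonpos (show A.κ (u⁻¹ * b) - l0 ≤ 0 by omega)]
          constructor
          · positivity
          · ring
        · rw [if_neg hc] at hl1
          rw [hl1, sub_self, abs_zero,
            abs_of_nonpos (show A.κ (u⁻¹ * b) - A.κ (u⁻¹ * a) ≤ 0 by omega),
            abs_of_nonneg (show 0 ≤ A.κ (u⁻¹ * b) - l0 by omega)]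
          constructor
          · omega
          · ring
    have hlb := A.line_between u a b hα2 l1 (by
      rw [A.s_line, A.s_symm u b, A.s_line, ← key.2, abs_neg, abs_sub_comm l1 (A.κ (u⁻¹ * b))])
    obtain ⟨w, hw1, hw2⟩ := near_pt H hlb
    have hρe : ρ * A.pr u b' = u * x ^ l0 := by
      rw [hρ, ← A.rt_mul_pr]
      unfold PAx.pr PAx.rt
      rw [show u⁻¹ * (u * x ^ (N * σ : ℤ) * u⁻¹ * b') = x ^ (N * σ : ℤ) * (u⁻¹ * b') by group,
        A.shift]
    have hd : H.d w (ρ * e') ≤ C0 A := by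
      have t1 := H.d_tri w (u * x ^ l1) (ρ * e')
      have t2 := H.d_tri (u * x ^ l1) (u * x ^ l0) (ρ * e')
      rw [← hρe, H.d_mul, H.d_comm (A.pr u b') e', hρe, H.d_mul, PAx.d_axis] at t2
      have t3 := len_zpow_le' H x (l0 - l1) (12 * A.th) (by
        rw [abs_sub_comm]; push_cast; exact key.1)
      unfold C0
      omega
    have hm : H.d w b + H.d (ρ * e') (ρ * b') < k := by
      rw [H.d_mul]
      omega
    obtain ⟨p, hp1, m, hm1, hm2⟩ := ih _ hm w b (ρ * e') (ρ * b') le_rfl (good_right hg hw1)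
      (good_mul ρ (good_right hg' he1)) hd ⟨ρ * n, M.mul_mem hρM hn, by rw [hb, mul_assoc]⟩
      (ρ * p') (by rw [H.d_mul, H.d_mul, H.d_mul]; exact he4)
    refine ⟨p, sub_right H hw1 hp1, ρ⁻¹ * m, M.mul_mem (M.inv_mem hρM) hm1, ?_⟩
    rw [← H.d_mul ρ, mul_assoc, mul_inv_cancel_left]
    exact hm2

end Close

theorem close {H : Hyp G} {x : G} (A : Ax H x) (c1 : ℕ) : ∃ N0 : ℕ, ∀ N ≥ N0,
    ∀ M : Subgroup G, Fill A N M → ∃ CL : ℕ, ∀ a b b' : G,
    Good A (3 * N + c1) a b → Good A (3 * N + c1) a b' → (∃ n ∈ M, b' = n * b) →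
    ∀ p' : G, H.d a p' + H.d p' b' = H.d a b' →
    ∃ p : G, H.d a p + H.d p b = H.d a b ∧ ∃ m ∈ M, H.d p' (m * p) ≤ CL := by
  refine ⟨4 * A.c + 48 * A.th + 4 * Close.t0 A + c1 + 1, fun N hN M hF =>
    ⟨4 * H.D + Close.C0 A + (2 * (A.c + H.D) + (Close.t0 A + 3 * N + c1) * H.len x), ?_⟩⟩
  intro a b b' h1 h2 h3 p' hp'
  exact Close.general A c1 N hN M hF _ a b a b' le_rfl h1 h2
    (by rw [H.d_self]; exact Nat.zero_le _) h3 p' hp'

end Pool.Agent.TH64
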